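import Pool.Agent.H77.QvA

open H77.Qv

universe u

theorem Pool.Agent.Results.MP_019b27_al.NoComplete.result :
    ∃ (L : Type) (_ : Lattice L), IsModularLattice L ∧
      ∀ (K : Type u) [CompleteLattice K] (f : LatticeHom L K), Function.Injective f →
        ¬ InQ K L :=
  ⟨LL, inferInstance, modular_LL, fun K _ f hf h =>
    not_hopf f hf ((holds_iff K).1 (h _ _ ((holds_iff LL).2 hopf_LL)))⟩
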